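import Mathlib

set_option autoImplicit false

namespace Pool.Agent.Results.MP_f1e34e_co.SliceRankBound

open Module

universe u

/-- A slice rank decomposition of an order-`d` tensor `T : [n_1] × ... × [n_d] → F`:
nonnegative integers `r j`, one-variable functions `a j i : [n_j] → F` and functions `b j i` of the
other coordinates (`j ∈ [d]`, `i < r j`) with
`T x = ∑ j, ∑ i, a j i (x j) * b j i (x with its j-th coordinate deleted)` for all `x`. -/
structure SliceDecomp {F : Type u} [Field F] {d : ℕ} {n : Fin d → ℕ}
    (T : (∀ j, Fin (n j)) → F) where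
  r : Fin d → ℕ
  a : ∀ j, Fin (r j) → Fin (n j) → F
  b : ∀ j, Fin (r j) → (∀ j' : {j' : Fin d // j' ≠ j}, Fin (n j')) → F
  eq : ∀ x, T x = ∑ j, ∑ i, a j i (x j) * b j i (fun j' => x j')

/-- The length `r 1 + ... + r d` of a slice rank decomposition. -/
def SliceDecomp.length {F : Type u} [Field F] {d : ℕ} {n : Fin d → ℕ}
    {T : (∀ j, Fin (n j)) → F} (D : SliceDecomp T) : ℕ := ∑ j, D.r j

/-- `T` has slice rank exactly `k`: the least length of a slice rank decomposition is `k`. -/
def HasSliceRank {F : Type u} [Field F] {d : ℕ} {n : Fin d → ℕ}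
    (T : (∀ j, Fin (n j)) → F) (k : ℕ) : Prop :=
  IsLeast {l : ℕ | ∃ D : SliceDecomp T, D.length = l} k

section Main

variable {F : Type*} [Field F] {d : ℕ} {X : Fin d → Type*} [∀ j, AddCommGroup (X j)]
  [∀ j, Module F (X j)]

/-- A multilinear map that vanishes on a product of sets vanishes on the product of the spans. -/
theorem vanish_span {ι : Type*} [Fintype ι] [DecidableEq ι] {Y : ι → Type*}
    [∀ j, AddCommGroup (Y j)] [∀ j, Module F (Y j)] (f : MultilinearMap F Y F)
    (P : ∀ j, Set (Y j)) (h : ∀ x : ∀ j, Y j, (∀ j, x j ∈ P j) → f x = 0) :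
    ∀ x : ∀ j, Y j, (∀ j, x j ∈ Submodule.span F (P j)) → f x = 0 := by
  have key : ∀ s : Finset ι, ∀ x : ∀ j, Y j, (∀ j ∈ s, x j ∈ Submodule.span F (P j)) →
      (∀ j, j ∉ s → x j ∈ P j) → f x = 0 := by
    intro s
    induction s using Finset.induction_on with
    | empty =>
      intro x _ h2
      exact h x fun j => h2 j (by simp)
    | insert a s ha ih =>
      intro x h1 h2
      have hx : x = Function.update x a (x a) := by simp
      rw [hx]
      have hxa : x a ∈ Submodule.span F (P a) := h1 a (by simp)
      generalize x a = v at hxa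
      induction hxa using Submodule.span_induction with
      | mem v hv =>
        refine ih _ ?_ ?_
        · intro j hj
          have hja : j ≠ a := by rintro rfl; exact ha hj
          rw [Function.update_of_ne hja]
          exact h1 j (by simp [hj])
        · intro j hj
          by_cases hja : j = a
          · subst hja; simpa using hv
          · rw [Function.update_of_ne hja]
            exact h2 j (by simp [hj, hja])
      | zero => simp
      | add v w _ _ hv hw => rw [f.map_update_add, hv, hw, add_zero]
      | smul c v _ hv => rw [f.map_update_smul, hv, smul_zero]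
  intro x hx
  exact key Finset.univ x (fun j _ => hx j) (fun j hj => absurd (Finset.mem_univ j) hj)

/-- Main lemma. Let `f` be multilinear, `W j` of codimension at most `β j`, and let `U i` (`i < N`)
be tuples of subspaces on whose products `f` vanishes, which are co-independent modulo `W` (every
element of `W j` is a sum of elements of `W j` lying in all but one of the `U i j`).
If `N > d * ∏ (1 + β j)` then for some `i` the form `f` vanishes on `∏ (U i j + W j)`. -/
theorem main_lemma (f : MultilinearMap F X F) (W : ∀ j, Submodule F (X j)) (β : Fin d → ℕ)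
    (w' : ∀ j, Fin (β j) → X j)
    (hw' : ∀ j (x : X j), ∃ y ∈ Submodule.span F (Set.range (w' j)), x - y ∈ W j)
    (N : ℕ) (U : ℕ → ∀ j, Submodule F (X j))
    (hN : d * ∏ j, (1 + β j) < N)
    (hU : ∀ i < N, ∀ x : ∀ j, X j, (∀ j, x j ∈ U i j) → f x = 0)
    (hG : ∀ j, W j ≤ Submodule.span F
      {y | y ∈ W j ∧ ∃ i, ∀ i' < N, i' ≠ i → y ∈ U i' j}) :
    ∃ i < N, ∀ x : ∀ j, X j, (∀ j, x j ∈ U i j ⊔ W j) → f x = 0 := by
  classical
  -- the set of pure vectors
  set Pure : ∀ j, Set (X j) := fun j => {y | y ∈ W j ∧ ∃ i, ∀ i' < N, i' ≠ i → y ∈ U i' j}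
    with hPure
  choose p hp1 hp2 using hw'
  -- restriction to the coordinates in S
  set Φ : ∀ (S : Finset (Fin d)) (y : ∀ j, X j),
      MultilinearMap F (fun j : {j // j ∈ S} => X j) F :=
    fun S y => f.domDomRestrict (fun j => j ∈ S) (fun j => y j) with hΦ
  have hΦapp : ∀ (S : Finset (Fin d)) (x y : ∀ j, X j),
      Φ S y (fun j => x j) = f (S.piecewise x y) := by
    intro S x y
    rfl
  set ev : ∀ (S : Finset (Fin d)) (y : ∀ j, X j), ((∀ j : {j // j ∈ S}, Fin (β j)) → F) :=
    fun S y c => Φ S y (fun j => w' j (c j)) with hev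
  set YY : Set (∀ j, X j) := {y | ∀ j, y j ∈ Pure j} with hYY
  have hfin : ∀ S : Finset (Fin d), ∃ t : Finset ((∀ j : {j // j ∈ S}, Fin (β j)) → F),
      (↑t ⊆ (ev S) '' YY) ∧ t.card ≤ ∏ j ∈ S, β j ∧
      Submodule.span F (t : Set ((∀ j : {j // j ∈ S}, Fin (β j)) → F)) =
        Submodule.span F ((ev S) '' YY) := by
    intro S
    obtain ⟨t, ht1, ht2, ht3, -⟩ := Submodule.exists_finset_span_eq_linearIndepOn F ((ev S) '' YY)
    refine ⟨t, ht1, ?_, ht3⟩
    rw [ht2]
    refine (Submodule.finrank_le _).trans ?_
    rw [Module.finrank_fintype_fun_eq_card, Fintype.card_pi]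
    simp only [Fintype.card_fin]
    rw [Finset.prod_coe_sort S β]
  choose t ht1 ht2 ht3 using hfin
  have hyv : ∀ (S : Finset (Fin d)) (v : ((∀ j : {j // j ∈ S}, Fin (β j)) → F)),
      ∃ y : ∀ j, X j, v ∈ t S → (y ∈ YY ∧ ev S y = v) := by
    intro S v
    by_cases hv : v ∈ t S
    · obtain ⟨y, hy1, hy2⟩ := ht1 S hv
      exact ⟨y, fun _ => ⟨hy1, hy2⟩⟩
    · exact ⟨0, fun h => absurd h hv⟩
  choose Y hY using hyv
  have hidx : ∀ (y : ∀ j, X j) (j : Fin d), ∃ i : ℕ, y ∈ YY → ∀ i' < N, i' ≠ i → y j ∈ U i' j := by
    intro y j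
    by_cases hy : y ∈ YY
    · obtain ⟨-, i, hi⟩ := hy j
      exact ⟨i, fun _ => hi⟩
    · exact ⟨0, fun h => absurd h hy⟩
  choose idx hidx using hidx
  set Bad : Finset ℕ := (Finset.univ : Finset (Finset (Fin d))).biUnion fun S =>
    (t S).biUnion fun v => (Finset.univ : Finset (Fin d)).image fun j => idx (Y S v) j with hBad
  have hBadcard : Bad.card < N := by
    refine lt_of_le_of_lt ?_ hN
    calc Bad.card ≤ ∑ S : Finset (Fin d), ((t S).biUnion fun v =>
            (Finset.univ : Finset (Fin d)).image fun j => idx (Y S v) j).card :=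
          Finset.card_biUnion_le
      _ ≤ ∑ S : Finset (Fin d), d * ∏ j ∈ S, β j := by
          refine Finset.sum_le_sum fun S _ => ?_
          refine Finset.card_biUnion_le.trans ?_
          calc ∑ v ∈ t S, ((Finset.univ : Finset (Fin d)).image fun j => idx (Y S v) j).card
              ≤ ∑ v ∈ t S, d := by
                refine Finset.sum_le_sum fun v _ => ?_
                exact Finset.card_image_le.trans (by simp)
            _ = (t S).card * d := by simp
            _ ≤ d * ∏ j ∈ S, β j := by
                rw [mul_comm]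
                exact Nat.mul_le_mul_left _ (ht2 S)
      _ = d * ∏ j, (1 + β j) := by
          rw [← Finset.mul_sum, Finset.prod_one_add]
          simp
  obtain ⟨i, hiN, hiBad⟩ : ∃ i < N, i ∉ Bad := by
    by_contra hcon
    push Not at hcon
    have : Finset.range N ⊆ Bad := fun i hi => hcon i (Finset.mem_range.mp hi)
    have := Finset.card_le_card this
    rw [Finset.card_range] at this
    omega
  refine ⟨i, hiN, ?_⟩
  have hgood : ∀ S : Finset (Fin d), ∀ v ∈ t S, ∀ j, (Y S v) j ∈ U i j := by
    intro S v hv j
    refine hidx (Y S v) j (hY S v hv).1 i hiN ?_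
    rintro rfl
    apply hiBad
    rw [hBad]
    simp only [Finset.mem_biUnion, Finset.mem_univ, true_and, Finset.mem_image]
    exact ⟨S, v, hv, j, rfl⟩
  -- the key claim
  have key : ∀ S : Finset (Fin d), ∀ x : ∀ j, X j, (∀ j ∈ S, x j ∈ U i j) →
      (∀ j, j ∉ S → x j ∈ W j) → f x = 0 := by
    intro S
    induction S using Finset.strongInduction with
    | H S IH =>
      -- Step B
      have stepB : ∀ a ∈ S, ∀ z : ∀ j, X j, z a ∈ W a → (∀ j ∈ S, z j ∈ U i j ⊔ W j) →
          (∀ j, j ∉ S → z j ∈ W j) → f z = 0 := by
        intro a ha z hz1 hz2 hz3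
        set P : ∀ j, Set (X j) := fun j => if j = a then (W j : Set (X j)) else
          if j ∈ S then (U i j : Set (X j)) ∪ (W j : Set (X j)) else (W j : Set (X j)) with hP
        refine vanish_span f P ?_ z ?_
        · intro x hx
          set S' : Finset (Fin d) := S.filter fun j => j ≠ a ∧ x j ∈ U i j with hS'
          have hS'S : S' ⊂ S := by
            refine ⟨Finset.filter_subset _ _, fun h => ?_⟩
            have := h ha
            rw [hS', Finset.mem_filter] at this
            exact this.2.1 rfl
          refine IH S' hS'S x ?_ ?_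
          · intro j hj
            rw [hS', Finset.mem_filter] at hj
            exact hj.2.2
          · intro j hj
            have hxj := hx j
            rw [hP] at hxj
            by_cases hja : j = a
            · simpa [hja] using hxj
            · by_cases hjS : j ∈ S
              · simp only [hja, hjS, if_true, if_false] at hxj
                rcases hxj with h | h
                · exfalso
                  apply hj
                  rw [hS', Finset.mem_filter]
                  exact ⟨hjS, hja, h⟩
                · exact h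
              · simpa [hja, hjS] using hxj
        · intro j
          rw [hP]
          by_cases hja : j = a
          · subst hja
            simpa using hz1
          · by_cases hjS : j ∈ S
            · simp only [hja, hjS, if_true, if_false]
              rw [Submodule.span_union, Submodule.span_eq, Submodule.span_eq]
              exact hz2 j hjS
            · simp only [hja, hjS, if_false]
              rw [Submodule.span_eq]
              exact hz3 j hjS
      -- Step C
      have stepC : ∀ x y : ∀ j, X j, (∀ j ∈ S, x j ∈ U i j) → (∀ j, y j ∈ W j) →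
          f (S.piecewise x y) = f (S.piecewise (fun j => p j (x j)) y) := by
        intro x y hx hy
        rw [← sub_eq_zero, MultilinearMap.map_piecewise_sub_map_piecewise]
        refine Finset.sum_eq_zero fun a ha => ?_
        refine stepB a ha _ ?_ ?_ ?_
        · simp only [ha, if_true, lt_irrefl, if_false]
          exact hp2 a (x a)
        · intro j hj
          simp only [hj, if_true]
          split_ifs with h1 h2
          · exact Submodule.mem_sup_left (hx j hj)
          · exact Submodule.mem_sup_right (hp2 j (x j))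
          · have : p j (x j) = x j - (x j - p j (x j)) := by abel
            rw [this]
            exact Submodule.sub_mem _ (Submodule.mem_sup_left (hx j hj))
              (Submodule.mem_sup_right (hp2 j (x j)))
        · intro j hj
          simp only [hj, if_false]
          exact hy j
      -- Step D
      have stepD : ∀ x y : ∀ j, X j, (∀ j ∈ S, x j ∈ U i j) → y ∈ YY →
          f (S.piecewise x y) = 0 := by
        intro x y hx hy
        rw [stepC x y hx fun j => (hy j).1]
        have hmem : ev S y ∈ Submodule.span F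
            (t S : Set ((∀ j : {j // j ∈ S}, Fin (β j)) → F)) := by
          rw [ht3]
          exact Submodule.subset_span ⟨y, hy, rfl⟩
        obtain ⟨c, -, hc⟩ := Submodule.mem_span_finset.mp hmem
        set h : MultilinearMap F (fun j : {j // j ∈ S} => X j) F :=
          Φ S y - ∑ v ∈ t S, c v • Φ S (Y S v) with hh
        have hvan : ∀ z : (∀ j : {j // j ∈ S}, X j),
            (∀ j : {j // j ∈ S}, z j ∈ Submodule.span F (Set.range (w' j))) → h z = 0 := by
          refine vanish_span h (fun j => Set.range (w' j)) ?_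
          intro z hz
          choose cc hcc using hz
          have hz' : z = fun j : {j // j ∈ S} => w' j (cc j) := by
            funext j
            exact (hcc j).symm
          rw [hz', hh]
          have h1 : (Φ S y) (fun j : {j // j ∈ S} => w' j (cc j)) = ev S y cc := rfl
          have h2 : (∑ v ∈ t S, c v • Φ S (Y S v)) (fun j : {j // j ∈ S} => w' j (cc j)) =
              (∑ v ∈ t S, c v • v) cc := by
            simp only [sum_apply, smul_apply, Finset.sum_apply,
              Pi.smul_apply]
            refine Finset.sum_congr rfl fun v hv => ?_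
            congr 1
            exact congrFun (hY S v hv).2 cc
          rw [sub_apply, h1, h2, hc, sub_self]
        have h3 := hvan (fun j => p j (x j)) (fun j => hp1 j (x j))
        rw [hh, sub_apply, sub_eq_zero] at h3
        rw [← hΦapp S (fun j => p j (x j)) y, h3]
        simp only [sum_apply, smul_apply]
        refine Finset.sum_eq_zero fun v hv => ?_
        rw [hΦapp S (fun j => p j (x j)) (Y S v), ← stepC x (Y S v) hx
          fun j => ((hY S v hv).1 j).1]
        rw [hU i hiN, smul_zero]
        intro j
        by_cases hj : j ∈ S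
        · simpa [hj] using hx j hj
        · simpa [hj] using hgood S v hv j
      -- Step E
      intro x hx1 hx2
      refine vanish_span f (fun j => if j ∈ S then (U i j : Set (X j)) else Pure j) ?_ x ?_
      · intro z hz
        have hz' : z = S.piecewise z (fun j => if j ∈ S then 0 else z j) := by
          funext j
          by_cases hj : j ∈ S <;> simp [hj]
        rw [hz']
        refine stepD z _ ?_ ?_
        · intro j hj
          have := hz j
          simpa [hj] using this
        · intro j
          by_cases hj : j ∈ S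
          · simp only [hj, if_true]
            exact ⟨Submodule.zero_mem _, 0, fun _ _ _ => Submodule.zero_mem _⟩
          · have := hz j
            simpa only [hj, if_false] using this
      · intro j
        by_cases hj : j ∈ S
        · simp only [hj, if_true]
          rw [Submodule.span_eq]
          exact hx1 j hj
        · simp only [hj, if_false]
          exact hG j (hx2 j hj)
  intro x hx
  refine vanish_span f (fun j => (U i j : Set (X j)) ∪ (W j : Set (X j))) ?_ x ?_
  · intro z hz
    refine key (Finset.univ.filter fun j => z j ∈ U i j) z ?_ ?_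
    · intro j hj
      simpa using hj
    · intro j hj
      rcases hz j with h | h
      · exfalso
        apply hj
        simpa using h
      · exact h
  · intro j
    rw [Submodule.span_union, Submodule.span_eq, Submodule.span_eq]
    exact hx j

end Main

section

variable {F : Type u} [Field F] {d : ℕ} {n : Fin d → ℕ}

/-- the multilinear form on the duals attached to a tensor -/
noncomputable def hat (T : (∀ j, Fin (n j)) → F) :
    MultilinearMap F (fun j => Dual F (Fin (n j) → F)) F :=
  ∑ x, T x • (MultilinearMap.mkPiAlgebra F (Fin d) F).compLinearMap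
    (fun j => LinearMap.applyₗ (R := F) (Pi.single (x j) (1 : F) : Fin (n j) → F))

theorem hat_apply (T : (∀ j, Fin (n j)) → F) (φ : ∀ j, Dual F (Fin (n j) → F)) :
    hat T φ = ∑ x, T x * ∏ j, φ j (Pi.single (x j) 1) := by
  simp [hat]

theorem hat_proj (T : (∀ j, Fin (n j)) → F) (x : ∀ j, Fin (n j)) :
    hat T (fun j => LinearMap.proj (x j)) = T x := by
  rw [hat_apply, Finset.sum_eq_single x]
  · simp
  · intro y _ hy
    obtain ⟨j, hj⟩ := Function.ne_iff.mp hy
    rw [Finset.prod_eq_zero (Finset.mem_univ j), mul_zero]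
    simp [hj.symm]
  · simp

theorem dual_apply {m : ℕ} (φ : Dual F (Fin m → F)) (a : Fin m → F) :
    ∑ y, a y * φ (Pi.single y 1) = φ a := by
  conv_rhs => rw [← Finset.univ_sum_single a]
  rw [map_sum]
  refine Finset.sum_congr rfl fun y _ => ?_
  have : (Pi.single y (a y) : Fin m → F) = a y • Pi.single y 1 := by
    rw [← Pi.single_smul']; simp
  rw [this, map_smul, smul_eq_mul]

/-- A decomposition gives vanishing. -/
theorem hat_eq_zero {T : (∀ j, Fin (n j)) → F} (D : SliceDecomp T)
    (φ : ∀ j, Dual F (Fin (n j) → F)) (hφ : ∀ j i, φ j (D.a j i) = 0) : hat T φ = 0 := by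
  rw [hat_apply]
  simp_rw [D.eq, Finset.sum_mul]
  rw [Finset.sum_comm]
  refine Finset.sum_eq_zero fun j _ => ?_
  rw [Finset.sum_comm]
  refine Finset.sum_eq_zero fun i _ => ?_
  rw [← (Equiv.piSplitAt j (fun j => Fin (n j))).symm.sum_comp, Fintype.sum_prod_type_right]
  refine Finset.sum_eq_zero fun z _ => ?_
  have h1 : ∀ y : Fin (n j), D.a j i ((Equiv.piSplitAt j (fun j => Fin (n j))).symm (y, z) j) *
      D.b j i (fun j' => (Equiv.piSplitAt j (fun j => Fin (n j))).symm (y, z) j') *
      ∏ j', φ j' (Pi.single ((Equiv.piSplitAt j (fun j => Fin (n j))).symm (y, z) j') 1) =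
      (D.a j i y * φ j (Pi.single y 1)) * (D.b j i z * ∏ j' : {j' // j' ≠ j}, φ j' (Pi.single (z j') 1)) := by
    intro y
    rw [Fintype.prod_eq_mul_prod_subtype_ne _ j]
    have e1 : (Equiv.piSplitAt j (fun j => Fin (n j))).symm (y, z) j = y := by
      simp [Equiv.piSplitAt]
    have e2 : ∀ j' : {j' // j' ≠ j}, (Equiv.piSplitAt j (fun j => Fin (n j))).symm (y, z) j' = z j' := by
      intro j'
      simp [Equiv.piSplitAt, j'.2]
    simp_rw [e2]
    rw [e1]
    ring
  simp_rw [h1]
  rw [← Finset.sum_mul, dual_apply, hφ, zero_mul]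

/-- Vanishing gives a decomposition. -/
theorem exists_decomp {T : (∀ j, Fin (n j)) → F} (A : ∀ j, Submodule F (Fin (n j) → F))
    (h : ∀ φ : ∀ j, Dual F (Fin (n j) → F), (∀ j, φ j ∈ (A j).dualAnnihilator) → hat T φ = 0) :
    ∃ D : SliceDecomp T, D.length = ∑ j, finrank F (A j) := by
  classical
  set bs : ∀ j, Basis (Fin (finrank F (A j))) F (A j) := fun j => finBasis F (A j) with hbs
  -- dual vectors
  have hφ : ∀ j, ∃ φ : Fin (finrank F (A j)) → Dual F (Fin (n j) → F),
      ∀ l m, φ l (bs j m : Fin (n j) → F) = if l = m then 1 else 0 := by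
    intro j
    have := fun l => LinearMap.exists_extend ((bs j).coord l)
    choose φ hφ using this
    refine ⟨φ, fun l m => ?_⟩
    have := LinearMap.congr_fun (hφ l) (bs j m)
    simp only [LinearMap.comp_apply, Submodule.subtype_apply] at this
    rw [this]
    simp [Finsupp.single_apply, eq_comm]
  choose φ hφ using hφ
  set uu : ∀ j, Fin (n j) → Dual F (Fin (n j) → F) := fun j y =>
    LinearMap.proj y - ∑ l, (bs j l : Fin (n j) → F) y • φ j l with huu
  have huA : ∀ j y, uu j y ∈ (A j).dualAnnihilator := by
    intro j y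
    rw [Submodule.mem_dualAnnihilator]
    intro w hw
    have hw' : (⟨w, hw⟩ : A j) ∈ Submodule.span F (Set.range (bs j)) := by
      rw [(bs j).span_eq]; trivial
    have : w = ∑ m, (bs j).repr ⟨w, hw⟩ m • (bs j m : Fin (n j) → F) := by
      have h5 := congrArg (Submodule.subtype (A j)) ((bs j).sum_repr ⟨w, hw⟩)
      rw [map_sum] at h5
      simp only [map_smul, Submodule.subtype_apply] at h5
      exact h5.symm
    rw [this, map_sum]
    refine Finset.sum_eq_zero fun m _ => ?_
    rw [map_smul]
    have h2 : uu j y (bs j m : Fin (n j) → F) = 0 := by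
      simp only [huu, LinearMap.sub_apply, LinearMap.proj_apply, LinearMap.sum_apply,
        LinearMap.smul_apply, hφ, smul_eq_mul]
      simp
    rw [h2, smul_zero]
  refine ⟨{ r := fun j => finrank F (A j)
            a := fun j l => (bs j l : Fin (n j) → F)
            b := fun j l z => hat T (fun j' => if h : j' = j then h ▸ φ j l else
                if j' < j then LinearMap.proj (z ⟨j', h⟩) else uu j' (z ⟨j', h⟩))
            eq := ?_ }, rfl⟩
  intro x
  have h1 := MultilinearMap.map_sub_map_piecewise (hat T)
    (fun j => (LinearMap.proj (x j) : Dual F (Fin (n j) → F))) (fun j => uu j (x j)) Finset.univ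
  rw [Finset.piecewise_univ, h _ (fun j => huA j (x j)), sub_zero, hat_proj] at h1
  rw [h1]
  refine Finset.sum_congr rfl fun j _ => ?_
  have h2 : (fun j' : Fin d => if j' ∈ Finset.univ → j' < j then
      (LinearMap.proj (x j') : Dual F (Fin (n j') → F)) else
      if j = j' then LinearMap.proj (x j') - uu j' (x j') else uu j' (x j')) =
      Function.update (fun j' : Fin d => if j' < j then
      (LinearMap.proj (x j') : Dual F (Fin (n j') → F)) else uu j' (x j')) j
        (∑ l, (bs j l : Fin (n j) → F) (x j) • φ j l) := by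
    funext j'
    by_cases hj : j' = j
    · subst hj
      simp [huu]
    · rw [Function.update_of_ne hj]
      have : ¬ (j = j') := fun h => hj h.symm
      simp [this]
  rw [h2, MultilinearMap.map_update_sum]
  refine Finset.sum_congr rfl fun l _ => ?_
  rw [MultilinearMap.map_update_smul, smul_eq_mul]
  congr 2

end

section Final

variable {F : Type u} [Field F] {d : ℕ} {n : Fin d → ℕ}

/-- Sequential independence gives the decomposition of the annihilator into pure vectors. -/
theorem coindep {V : Type*} [AddCommGroup V] [Module F V] [FiniteDimensional F V]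
    (B : Submodule F V) (A E : ℕ → Submodule F V) (hE0 : E 0 = B)
    (hE : ∀ i, E (i + 1) = E i ⊔ A i) (N : ℕ) (hA : ∀ i < N, A i ⊓ E i ≤ B) :
    B.dualAnnihilator ≤ Submodule.span F {y | y ∈ B.dualAnnihilator ∧
      ∃ i, ∀ i' < N, i' ≠ i → y ∈ (A i').dualAnnihilator} := by
  have hmono : Monotone E := monotone_nat_of_le_succ fun i => by rw [hE]; exact le_sup_left
  have hAE : ∀ i j, i < j → A i ≤ E j := by
    intro i j hij
    refine le_trans ?_ (hmono (Nat.succ_le_of_lt hij))
    rw [Nat.succ_eq_add_one, hE]
    exact le_sup_right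
  have hBE : ∀ i, B ≤ E i := fun i => by rw [← hE0]; exact hmono (Nat.zero_le i)
  induction N with
  | zero =>
    intro y hy
    exact Submodule.subset_span ⟨hy, 0, fun i' hi' => absurd hi' (Nat.not_lt_zero _)⟩
  | succ N ih =>
    refine (ih fun i hi => hA i (hi.trans (Nat.lt_succ_self N))).trans ?_
    rw [Submodule.span_le]
    rintro y ⟨hyB, i, hi⟩
    have h1 : y ∈ (A N ⊓ E N).dualAnnihilator :=
      Submodule.dualAnnihilator_anti (hA N (Nat.lt_succ_self N)) hyB
    rw [Subspace.dualAnnihilator_inf_eq] at h1
    obtain ⟨u, hu, e, he, hue⟩ := Submodule.mem_sup.mp h1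
    have heB : e ∈ B.dualAnnihilator := Submodule.dualAnnihilator_anti (hBE N) he
    have heA : ∀ i' < N, e ∈ (A i').dualAnnihilator := fun i' hi' =>
      Submodule.dualAnnihilator_anti (hAE i' N hi') he
    have hu' : u = y - e := by rw [← hue]; abel
    rw [← hue]
    refine Submodule.add_mem _ (Submodule.subset_span ⟨?_, i, ?_⟩)
      (Submodule.subset_span ⟨heB, N, ?_⟩)
    · rw [hu']; exact Submodule.sub_mem _ hyB heB
    · intro i' hi' hne
      rcases Nat.lt_succ_iff_lt_or_eq.mp hi' with h | h
      · rw [hu']; exact Submodule.sub_mem _ (hi i' h hne) (heA i' h)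
      · subst h; exact hu
    · intro i' hi' hne
      exact heA i' (lt_of_le_of_ne (Nat.lt_succ_iff.mp hi') hne)

/-- The finite-dimensional annihilator has a complement spanned by the right number of vectors. -/
theorem exists_compl_basis {V : Type*} [AddCommGroup V] [Module F V] [FiniteDimensional F V]
    (B : Submodule F V) : ∃ w : Fin (finrank F B) → Dual F V,
      ∀ x : Dual F V, ∃ y ∈ Submodule.span F (Set.range w), x - y ∈ B.dualAnnihilator := by
  obtain ⟨C, hC⟩ := Submodule.exists_isCompl B.dualAnnihilator
  have h1 := Submodule.finrank_add_eq_of_isCompl hC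
  have h2 := Subspace.finrank_add_finrank_dualAnnihilator_eq B
  have h3 : finrank F (Dual F V) = finrank F V := Subspace.dual_finrank_eq
  have h4 : finrank F C = finrank F B := by omega
  have : Module.Free F C := Module.Free.of_divisionRing F C
  have : Module.Finite F C := FiniteDimensional.finiteDimensional_submodule C
  set bs := finBasisOfFinrankEq F C h4
  refine ⟨fun i => (bs i : Dual F V), fun x => ?_⟩
  have hx : x ∈ B.dualAnnihilator ⊔ C := by rw [hC.sup_eq_top]; trivial
  obtain ⟨w, hw, y, hy, hwy⟩ := Submodule.mem_sup.mp hx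
  refine ⟨y, ?_, by rw [← hwy]; simpa using hw⟩
  have h5 : (⟨y, hy⟩ : C) ∈ Submodule.span F (Set.range bs) := by rw [bs.span_eq]; trivial
  have h6 := Submodule.mem_map_of_mem (f := C.subtype) h5
  rw [Submodule.map_span, ← Set.range_comp] at h6
  exact h6

/-- the tuple of subspaces kills the tensor -/
def Kills (T : (∀ j, Fin (n j)) → F) (A : ∀ j, Submodule F (Fin (n j) → F)) : Prop :=
  ∀ φ : ∀ j, Dual F (Fin (n j) → F), (∀ j, φ j ∈ (A j).dualAnnihilator) → hat T φ = 0

/-- One step of the construction: enlarge `B` so that all minimal decompositions meet it more. -/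
theorem step (T : (∀ j, Fin (n j)) → F) (k : ℕ)
    (hmin : ∀ A : ∀ j, Submodule F (Fin (n j) → F), Kills T A → k ≤ ∑ j, finrank F (A j))
    (s : ℕ) (hs : s < k) (B : ∀ j, Submodule F (Fin (n j) → F))
    (hB : ∀ A : ∀ j, Submodule F (Fin (n j) → F), Kills T A → ∑ j, finrank F (A j) = k →
      s ≤ ∑ j, finrank F (A j ⊓ B j : Submodule F (Fin (n j) → F))) :
    ∃ B' : ∀ j, Submodule F (Fin (n j) → F),
      (∀ A : ∀ j, Submodule F (Fin (n j) → F), Kills T A → ∑ j, finrank F (A j) = k →
        s + 1 ≤ ∑ j, finrank F (A j ⊓ B' j : Submodule F (Fin (n j) → F))) ∧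
      ∑ j, finrank F (B' j) ≤ ∑ j, finrank F (B j) + k * (d * ∏ j, (1 + finrank F (B j))) := by
  classical
  by_contra hcon
  push Not at hcon
  set M : ℕ := d * ∏ j, (1 + finrank F (B j)) with hM
  have hbad : ∀ B' : ∀ j, Submodule F (Fin (n j) → F), ∃ A : ∀ j, Submodule F (Fin (n j) → F),
      ∑ j, finrank F (B' j) ≤ ∑ j, finrank F (B j) + k * M →
      Kills T A ∧ ∑ j, finrank F (A j) = k ∧
        ∑ j, finrank F (A j ⊓ B' j : Submodule F (Fin (n j) → F)) ≤ s := by
    intro B'
    by_cases hB' : ∑ j, finrank F (B' j) ≤ ∑ j, finrank F (B j) + k * M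
    · by_contra hA
      push Not at hA
      have h1 : ∀ A : ∀ j, Submodule F (Fin (n j) → F), Kills T A → ∑ j, finrank F (A j) = k →
          s + 1 ≤ ∑ j, finrank F (A j ⊓ B' j : Submodule F (Fin (n j) → F)) := by
        intro A hA1 hA2
        exact (hA A).2 hA1 hA2
      exact absurd hB' (not_le.mpr (hcon B' h1))
    · exact ⟨fun _ => ⊥, fun h => absurd h hB'⟩
  choose g hg using hbad
  set E : ℕ → ∀ j, Submodule F (Fin (n j) → F) := fun i =>
    Nat.rec B (fun _ Ei => fun j => Ei j ⊔ g Ei j) i with hE
  have hE0 : E 0 = B := rfl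
  have hEs : ∀ i, E (i + 1) = fun j => E i j ⊔ g (E i) j := fun i => rfl
  have hdim : ∀ i ≤ M, ∑ j, finrank F (E i j) ≤ ∑ j, finrank F (B j) + k * i := by
    intro i
    induction i with
    | zero => intro _; rw [hE0]; simp
    | succ i ih =>
      intro hi
      have h1 := ih (by omega)
      have h2 := hg (E i) (h1.trans (Nat.add_le_add_left (Nat.mul_le_mul_left _ (by omega)) _))
      rw [hEs]
      calc ∑ j, finrank F (E i j ⊔ g (E i) j : Submodule F (Fin (n j) → F))
          ≤ ∑ j, (finrank F (E i j) + finrank F (g (E i) j)) :=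
            Finset.sum_le_sum fun j _ => Submodule.finrank_add_le_finrank_add_finrank _ _
        _ = ∑ j, finrank F (E i j) + k := by rw [Finset.sum_add_distrib, h2.2.1]
        _ ≤ ∑ j, finrank F (B j) + k * (i + 1) := by
            rw [Nat.mul_succ]; omega
  have hgood : ∀ i ≤ M, Kills T (g (E i)) ∧ ∑ j, finrank F (g (E i) j) = k ∧
      ∑ j, finrank F (g (E i) j ⊓ E i j : Submodule F (Fin (n j) → F)) ≤ s := fun i hi =>
    hg (E i) ((hdim i hi).trans (Nat.add_le_add_left (Nat.mul_le_mul_left _ hi) _))
  have hBE : ∀ i j, B j ≤ E i j := by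
    intro i j
    induction i with
    | zero => exact le_of_eq (congrFun hE0 j).symm
    | succ i ih => rw [hEs]; exact ih.trans le_sup_left
  -- independence
  have hind : ∀ i ≤ M, ∀ j, g (E i) j ⊓ E i j ≤ B j := by
    intro i hi
    have h1 := hB (g (E i)) (hgood i hi).1 (hgood i hi).2.1
    have h2 := (hgood i hi).2.2
    have h3 : ∀ j ∈ Finset.univ, finrank F (g (E i) j ⊓ B j : Submodule F (Fin (n j) → F)) ≤
        finrank F (g (E i) j ⊓ E i j : Submodule F (Fin (n j) → F)) := fun j _ =>
      Submodule.finrank_mono (inf_le_inf_left _ (hBE i j))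
    have h4 := (Finset.sum_eq_sum_iff_of_le h3).mp
      (le_antisymm (Finset.sum_le_sum h3) (h2.trans h1))
    intro j
    have h5 := Submodule.eq_of_le_of_finrank_eq (inf_le_inf_left (g (E i) j) (hBE i j))
      (h4 j (Finset.mem_univ j))
    rw [← h5]
    exact inf_le_right
  have hw : ∀ j, ∃ w : Fin (finrank F (B j)) → Dual F (Fin (n j) → F),
      ∀ x : Dual F (Fin (n j) → F), ∃ y ∈ Submodule.span F (Set.range w),
        x - y ∈ (B j).dualAnnihilator := fun j => exists_compl_basis (B j)
  choose w hw using hw
  obtain ⟨i, hi, hvan⟩ := main_lemma (hat T) (fun j => (B j).dualAnnihilator)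
    (fun j => finrank F (B j)) w hw (M + 1) (fun i j => (g (E i) j).dualAnnihilator)
    (Nat.lt_succ_self _)
    (fun i hi x hx => (hgood i (Nat.lt_succ_iff.mp hi)).1 x hx)
    (fun j => coindep (B j) (fun i => g (E i) j) (fun i => E i j) (congrFun hE0 j)
      (fun i => congrFun (hEs i) j) (M + 1) (fun i hi => hind i (Nat.lt_succ_iff.mp hi) j))
  have hi' : i ≤ M := Nat.lt_succ_iff.mp hi
  have hk := hmin (fun j => g (E i) j ⊓ B j) (by
    intro φ hφ
    refine hvan φ fun j => ?_
    rw [← Subspace.dualAnnihilator_inf_eq]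
    exact hφ j)
  have h6 : ∑ j, finrank F (g (E i) j ⊓ B j : Submodule F (Fin (n j) → F)) ≤ s :=
    le_trans (Finset.sum_le_sum fun j _ =>
      Submodule.finrank_mono (inf_le_inf_left _ (hBE i j))) (hgood i hi').2.2
  omega

/-- Iterating the step. -/
theorem main (hd : 1 ≤ d) (T : (∀ j, Fin (n j)) → F) (k : ℕ)
    (hmin : ∀ A : ∀ j, Submodule F (Fin (n j) → F), Kills T A → k ≤ ∑ j, finrank F (A j)) :
    ∀ s ≤ k, ∃ B : ∀ j, Submodule F (Fin (n j) → F),
      (∀ A : ∀ j, Submodule F (Fin (n j) → F), Kills T A → ∑ j, finrank F (A j) = k →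
        s ≤ ∑ j, finrank F (A j ⊓ B j : Submodule F (Fin (n j) → F))) ∧
      1 + ∑ j, finrank F (B j) ≤ (1 + d * k) ^ (∑ i ∈ Finset.range s, d ^ i) := by
  intro s
  induction s with
  | zero =>
    intro _
    exact ⟨fun _ => ⊥, fun _ _ _ => Nat.zero_le _, by simp⟩
  | succ s ih =>
    intro hs
    obtain ⟨B, hB1, hB2⟩ := ih (by omega)
    obtain ⟨B', hB'1, hB'2⟩ := step T k hmin s (by omega) B hB1
    refine ⟨B', hB'1, ?_⟩
    set t := ∑ j, finrank F (B j) with ht
    have h1 : ∏ j, (1 + finrank F (B j)) ≤ (1 + t) ^ d := by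
      calc ∏ j, (1 + finrank F (B j)) ≤ ∏ j : Fin d, (1 + t) := by
            refine Finset.prod_le_prod' fun j _ => ?_
            exact Nat.add_le_add_left
              (Finset.single_le_sum (f := fun j => finrank F (B j)) (fun _ _ => Nat.zero_le _)
                (Finset.mem_univ j)) 1
        _ = (1 + t) ^ d := by simp
    have h2 : 1 + t ≤ (1 + t) ^ d := by
      calc 1 + t = (1 + t) ^ 1 := (pow_one _).symm
        _ ≤ (1 + t) ^ d := Nat.pow_le_pow_right (by omega) hd
    calc 1 + ∑ j, finrank F (B' j) ≤ 1 + (t + k * (d * ∏ j, (1 + finrank F (B j)))) := by omega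
      _ ≤ (1 + t) ^ d + k * (d * (1 + t) ^ d) := by
          rw [← add_assoc]
          exact Nat.add_le_add h2 (Nat.mul_le_mul_left _ (Nat.mul_le_mul_left _ h1))
      _ = (1 + d * k) * (1 + t) ^ d := by ring
      _ ≤ (1 + d * k) * ((1 + d * k) ^ (∑ i ∈ Finset.range s, d ^ i)) ^ d :=
          Nat.mul_le_mul_left _ (Nat.pow_le_pow_left hB2 d)
      _ = (1 + d * k) ^ (∑ i ∈ Finset.range (s + 1), d ^ i) := by
          rw [Finset.sum_range_succ', ← pow_mul, ← pow_succ', Finset.sum_mul]
          simp only [pow_succ, pow_zero]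

/-- Bounded subspaces containing all minimal slice rank decompositions: for a tensor of order
`d ≥ 1` and slice rank exactly `k` over any field there are subspaces `A j`, each of dimension at
most `(1 + d k) ^ (1 + d + ... + d ^ (k - 1))`, such that in every minimal-length slice rank
decomposition the span of the `j`-th one-variable factors lies in `A j`, for each `j`. -/
theorem result (d k : ℕ) (hd : 1 ≤ d) :
    ∀ (F : Type u) [Field F] (n : Fin d → ℕ) (T : (∀ j, Fin (n j)) → F), HasSliceRank T k →
      ∃ A : ∀ j, Submodule F (Fin (n j) → F),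
        (∀ j, finrank F (A j) ≤ (1 + d * k) ^ (∑ i ∈ Finset.range k, d ^ i)) ∧
        ∀ D : SliceDecomp T, D.length = k → ∀ j, Submodule.span F (Set.range (D.a j)) ≤ A j := by
  intro F _ n T hT
  have hmin : ∀ A : ∀ j, Submodule F (Fin (n j) → F), Kills T A → k ≤ ∑ j, finrank F (A j) := by
    intro A hA
    obtain ⟨D, hD⟩ := exists_decomp A hA
    exact hT.2 ⟨D, hD⟩
  obtain ⟨B, hB1, hB2⟩ := main hd T k hmin k le_rfl
  refine ⟨B, fun j => ?_, fun D hD j => ?_⟩
  · have := Finset.single_le_sum (f := fun j => finrank F (B j)) (fun _ _ => Nat.zero_le _)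
      (Finset.mem_univ j)
    omega
  · set A : ∀ j, Submodule F (Fin (n j) → F) := fun j => Submodule.span F (Set.range (D.a j))
      with hA
    have hkill : Kills T A := by
      intro φ hφ
      refine hat_eq_zero D φ fun j i => ?_
      exact (Submodule.mem_dualAnnihilator _).mp (hφ j) _
        (Submodule.subset_span (Set.mem_range_self i))
    have hle : ∑ j, finrank F (A j) ≤ k := by
      rw [← hD, SliceDecomp.length]
      refine Finset.sum_le_sum fun j _ => ?_
      refine (finrank_range_le_card (R := F) (D.a j)).trans ?_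
      simp
    have heq : ∑ j, finrank F (A j) = k := le_antisymm hle (hmin A hkill)
    have h1 := hB1 A hkill heq
    have h3 : ∀ j ∈ Finset.univ, finrank F (A j ⊓ B j : Submodule F (Fin (n j) → F)) ≤
        finrank F (A j) := fun j _ => Submodule.finrank_mono inf_le_left
    have h4 := (Finset.sum_eq_sum_iff_of_le h3).mp
      (le_antisymm (Finset.sum_le_sum h3) (by rw [heq]; exact h1))
    have h5 := Submodule.eq_of_le_of_finrank_eq (inf_le_left (a := A j) (b := B j))
      (h4 j (Finset.mem_univ j))
    change A j ≤ B j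
    rw [← h5]
    exact inf_le_right

end Final

end Pool.Agent.Results.MP_f1e34e_co.SliceRankBound
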